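import Mathlib
import Pool.Agent.H58P.Rad

set_option autoImplicit false

/-!
# Valuations of `Qb` above a prime which is unramified in a number field
-/

namespace Pool.Agent.X285

open NumberField UniqueFactorizationMonoid IsDedekindDomain
open Pool.Agent.H58P (Qb squarefree_span)

lemma integral_mem (V : ValuationSubring Qb) (z : Qb) (hz : IsIntegral ℤ z) :
    V.valuation z ≤ 1 := by
  rw [ValuationSubring.valuation_le_one_iff]
  have h1 : IsIntegral V z := hz.tower_top
  obtain ⟨y, hy⟩ := IsIntegrallyClosed.isIntegral_iff.mp h1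
  rw [← hy]
  exact y.2

lemma nat_le_one (V : ValuationSubring Qb) (n : ℕ) : V.valuation (n : Qb) ≤ 1 :=
  integral_mem V _ (isIntegral_algebraMap (R := ℤ) (A := Qb) (x := (n : ℤ)) |> fun h => by simpa using h)

/-- the centre of `V` on the ring of integers of `M` -/
noncomputable def centre (M : IntermediateField ℚ Qb) (V : ValuationSubring Qb) : Ideal (𝓞 M) where
  carrier := {z | V.valuation ((z : M) : Qb) < 1}
  add_mem' {a b} ha hb := by
    have : V.valuation (((a + b : 𝓞 M) : M) : Qb) ≤
        max (V.valuation ((a : M) : Qb)) (V.valuation ((b : M) : Qb)) := by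
      push_cast
      exact V.valuation.map_add _ _
    exact this.trans_lt (max_lt ha hb)
  zero_mem' := by
    show V.valuation (((0 : 𝓞 M) : M) : Qb) < 1
    simp
  smul_mem' c x hx := by
    show V.valuation (((c * x : 𝓞 M) : M) : Qb) < 1
    push_cast
    rw [map_mul]
    have h1 : V.valuation ((c : M) : Qb) ≤ 1 :=
      integral_mem V _ (c.isIntegral_coe.map (algebraMap M Qb).toIntAlgHom)
    have h2 : V.valuation ((x : M) : Qb) < 1 := hx
    calc V.valuation ((c : M) : Qb) * V.valuation ((x : M) : Qb)
        ≤ 1 * V.valuation ((x : M) : Qb) := mul_le_mul_left h1 _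
      _ < 1 := by rwa [one_mul]

lemma mem_centre (M : IntermediateField ℚ Qb) (V : ValuationSubring Qb) (z : 𝓞 M) :
    z ∈ centre M V ↔ V.valuation ((z : M) : Qb) < 1 := Iff.rfl

lemma int_val_le (M : IntermediateField ℚ Qb) (V : ValuationSubring Qb) (z : 𝓞 M) :
    V.valuation ((z : M) : Qb) ≤ 1 :=
  integral_mem V _ (z.isIntegral_coe.map (algebraMap M Qb).toIntAlgHom)

/-- if the prime `q` is unramified in `M` then the values of `V` on `M` are powers of `V(q)` -/
theorem val_zpow (M : IntermediateField ℚ Qb) [NumberField M] (q : ℕ) (hq : q.Prime)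
    (hd : ¬ (q : ℤ) ∣ discr M) (V : ValuationSubring Qb) (hV : V.valuation (q : Qb) < 1)
    (x : M) (hx : x ≠ 0) : ∃ m : ℤ, V.valuation (x : Qb) = V.valuation (q : Qb) ^ m := by
  classical
  set P := centre M V with hP
  have hPprime : P.IsPrime := by
    refine ⟨?_, ?_⟩
    · intro h
      have h1 : (1 : 𝓞 M) ∈ P := by rw [h]; trivial
      rw [mem_centre] at h1
      simp at h1
    · intro a b hab
      by_contra hcon
      push Not at hcon
      obtain ⟨h1, h2⟩ := hcon
      rw [mem_centre, not_lt] at h1 h2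
      rw [mem_centre] at hab
      push_cast at hab
      rw [map_mul] at hab
      have h3 : V.valuation ((a : M) : Qb) = 1 := le_antisymm (int_val_le M V a) h1
      have h4 : V.valuation ((b : M) : Qb) = 1 := le_antisymm (int_val_le M V b) h2
      rw [h3, h4, one_mul] at hab
      exact lt_irrefl _ hab
  have hqP : (q : 𝓞 M) ∈ P := by
    rw [mem_centre]
    simpa using hV
  have hq0 : (q : 𝓞 M) ≠ 0 := by exact_mod_cast hq.ne_zero
  have hPbot : P ≠ ⊥ := by
    intro h
    rw [h, Ideal.mem_bot] at hqP
    exact hq0 hqP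
  let v : HeightOneSpectrum (𝓞 M) := ⟨P, hPprime, hPbot⟩
  -- the valuation of `q`
  have hvq : v.valuation M (q : M) = WithZero.exp (-1 : ℤ) := by
    have e : (q : M) = algebraMap (𝓞 M) M (q : 𝓞 M) := by simp
    rw [e, HeightOneSpectrum.valuation_of_algebraMap, v.intValuation_if_neg hq0]
    have hirr : Irreducible P := v.irreducible
    have hcount : (Associates.mk v.asIdeal).count
        (Associates.mk (Ideal.span {(q : 𝓞 M)})).factors = 1 := by
      have hsq := squarefree_span (K := M) q hq hd
      have hbot : Ideal.span {(q : 𝓞 M)} ≠ 0 := by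
        rwa [Ne, Ideal.zero_eq_bot, Ideal.span_singleton_eq_bot]
      have h1 : 1 ≤ (Associates.mk v.asIdeal).count
          (Associates.mk (Ideal.span {(q : 𝓞 M)})).factors := by
        rw [← Associates.prime_pow_dvd_iff_le (Associates.mk_ne_zero.mpr hbot)
          (Associates.irreducible_mk.mpr hirr), pow_one, Associates.mk_le_mk_iff_dvd,
          Ideal.dvd_span_singleton]
        exact hqP
      have h2 : ¬ 2 ≤ (Associates.mk v.asIdeal).count
          (Associates.mk (Ideal.span {(q : 𝓞 M)})).factors := by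
        rw [← Associates.prime_pow_dvd_iff_le (Associates.mk_ne_zero.mpr hbot)
          (Associates.irreducible_mk.mpr hirr), ← Associates.mk_pow, Associates.mk_le_mk_iff_dvd]
        intro h
        have := hsq P (by rw [← sq]; exact h)
        exact hPprime.ne_top (Ideal.isUnit_iff.mp this)
      omega
    rw [hcount]
    simp
  have hx' : v.valuation M x ≠ 0 := (Valuation.ne_zero_iff _).mpr hx
  obtain ⟨m, hm⟩ : ∃ m : ℤ, v.valuation M x = v.valuation M (q : M) ^ m := by
    refine ⟨-(WithZero.log (v.valuation M x)), ?_⟩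
    rw [hvq, ← WithZero.exp_zsmul]
    conv_lhs => rw [← WithZero.exp_log hx']
    congr 1
    simp
  refine ⟨m, ?_⟩
  -- elements of valuation at most one
  have key : ∀ y : M, v.valuation M y ≤ 1 → V.valuation (y : Qb) ≤ 1 := by
    intro y hy
    obtain ⟨n, d, hnd⟩ := v.exists_primeCompl_mul_eq_of_integer y hy
    have hdP : (d : 𝓞 M) ∉ P := d.2
    rw [mem_centre, not_lt] at hdP
    have h3 : V.valuation (((d : 𝓞 M) : M) : Qb) = 1 := le_antisymm (int_val_le M V d) hdP
    have h4 : (y : Qb) * (((d : 𝓞 M) : M) : Qb) = ((n : M) : Qb) := by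
      have := congrArg (algebraMap M Qb) hnd
      simpa using this
    have h5 := congrArg V.valuation h4
    rw [map_mul, h3, mul_one] at h5
    rw [h5]
    exact int_val_le M V n
  have hqM : (q : M) ≠ 0 := by exact_mod_cast hq.ne_zero
  set y : M := x / (q : M) ^ m with hy
  have hvy : v.valuation M y = 1 := by
    rw [hy, map_div₀, map_zpow₀, hm, div_self]
    rw [← hm]; exact hx'
  have h1 := key y hvy.le
  have h2 := key y⁻¹ (by rw [map_inv₀, hvy, inv_one])
  have hy0 : y ≠ 0 := by
    rw [hy]
    exact div_ne_zero hx (zpow_ne_zero _ hqM)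
  have h3 : V.valuation (y : Qb) = 1 := by
    refine le_antisymm h1 ?_
    have e : ((y⁻¹ : M) : Qb) = (y : Qb)⁻¹ := by push_cast; rfl
    rw [e, map_inv₀] at h2
    have h4 : V.valuation (y : Qb) ≠ 0 := by
      rw [Valuation.ne_zero_iff]
      exact_mod_cast hy0
    exact (inv_le_one₀ (zero_lt_iff.mpr h4)).mp h2
  have h4 : (x : Qb) = (y : Qb) * (q : Qb) ^ m := by
    have : x = y * (q : M) ^ m := by
      rw [hy, div_mul_cancel₀ _ (zpow_ne_zero _ hqM)]
    conv_lhs => rw [this]
    push_cast
    rfl
  rw [h4, map_mul, h3, one_mul, map_zpow₀]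

end Pool.Agent.X285
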