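import Mathlib
import Pool.Agent.X285.Unr

set_option autoImplicit false

/-!
# The totally ramified subfields of a prime cyclotomic field
-/

namespace Pool.Agent.X285

open Pool.Agent.H58P (Qb)

section alg

variable (q : ℕ) [Fact q.Prime] (n : ℕ)

/-- the subgroup of `2^n`-th powers -/
def Hs : Subgroup (ZMod q)ˣ := (powMonoidHom (2 ^ n) : (ZMod q)ˣ →* (ZMod q)ˣ).range

lemma mem_Hs (k : (ZMod q)ˣ) : k ∈ Hs q n ↔ ∃ y : (ZMod q)ˣ, y ^ (2 ^ n) = k := by
  unfold Hs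
  simp [MonoidHom.mem_range]

lemma card_Hs (h : 2 ^ n ∣ q - 1) : Nat.card (Hs q n) * 2 ^ n = q - 1 := by
  have h1 : Nat.card (ZMod q)ˣ = q - 1 := by
    rw [Nat.card_eq_fintype_card, ZMod.card_units_eq_totient, Nat.totient_prime Fact.out]
  unfold Hs
  rw [IsCyclic.card_powMonoidHom_range, h1, Nat.gcd_eq_right h, Nat.div_mul_cancel h]

variable {R : Type*} [CommRing R]

/-- the power with exponent a residue class -/
def pw (ζ : R) (a : ZMod q) : R := ζ ^ a.val

open Classical in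
/-- the uniformizer -/
noncomputable def varpi (ζ : R) : R := ∏ h : Hs q n, (1 - pw q ζ ((h : (ZMod q)ˣ) : ZMod q))

variable {q}

lemma pw_mul {ζ : R} (hζ : ζ ^ q = 1) (a b : ZMod q) : pw q (pw q ζ a) b = pw q ζ (a * b) := by
  unfold pw
  rw [← pow_mul, ZMod.val_mul, ← pow_eq_pow_mod _ hζ]

lemma pw_pow {ζ : R} (hζ : ζ ^ q = 1) (a : ZMod q) : (pw q ζ a) ^ q = 1 := by
  unfold pw
  rw [← pow_mul, mul_comm, pow_mul, hζ, one_pow]

lemma pw_one (ζ : R) (hζ : ζ ^ q = 1) : pw q ζ 1 = ζ := by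
  have hq : 1 < q := (Fact.out : q.Prime).one_lt
  haveI : Fact (1 < q) := ⟨hq⟩
  unfold pw
  rw [ZMod.val_one, pow_one]

lemma map_pw {S : Type*} [CommRing S] (φ : R →+* S) (ζ : R) (a : ZMod q) :
    φ (pw q ζ a) = pw q (φ ζ) a := by
  unfold pw
  rw [map_pow]

variable {n}

lemma map_varpi {S : Type*} [CommRing S] (φ : R →+* S) (ζ : R) :
    φ (varpi q n ζ) = varpi q n (φ ζ) := by
  unfold varpi
  rw [map_prod]
  refine Finset.prod_congr rfl fun h _ => ?_
  rw [map_sub, map_one, map_pw]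

lemma varpi_pw {ζ : R} (hζ : ζ ^ q = 1) (k : (ZMod q)ˣ) (hk : k ∈ Hs q n) :
    varpi q n (pw q ζ (k : ZMod q)) = varpi q n ζ := by
  classical
  unfold varpi
  have h1 := Equiv.prod_comp (Equiv.mulLeft (⟨k, hk⟩ : Hs q n))
    (fun h : Hs q n => (1 : R) - pw q ζ ((h : (ZMod q)ˣ) : ZMod q))
  rw [← h1]
  refine Finset.prod_congr rfl fun h _ => ?_
  rw [pw_mul hζ]
  simp

end alg

section roots

variable {q : ℕ} [Fact q.Prime] {n : ℕ} {R : Type*} [CommRing R] [IsDomain R]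

lemma prim_pw {ζ : R} (hζ : IsPrimitiveRoot ζ q) (k : (ZMod q)ˣ) :
    IsPrimitiveRoot (pw q ζ (k : ZMod q)) q := by
  unfold pw
  exact hζ.pow_of_coprime _ (ZMod.val_coe_unit_coprime k)

/-- every primitive root is a power of a given one with invertible exponent -/
lemma exists_unit {ζ ζ' : R} (hζ : IsPrimitiveRoot ζ q) (hζ' : IsPrimitiveRoot ζ' q) :
    ∃ k : (ZMod q)ˣ, pw q ζ (k : ZMod q) = ζ' := by
  have hq : q.Prime := Fact.out
  obtain ⟨i, hi, hi'⟩ := hζ.eq_pow_of_pow_eq_one hζ'.pow_eq_one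
  have hi0 : i ≠ 0 := by
    rintro rfl
    rw [pow_zero] at hi'
    have := hζ'.ne_one hq.one_lt
    exact this hi'.symm
  have h1 : ((i : ℕ) : ZMod q) ≠ 0 := by
    intro h
    rw [ZMod.natCast_eq_zero_iff] at h
    exact hi0 (Nat.eq_zero_of_dvd_of_lt h hi)
  refine ⟨Units.mk0 (i : ZMod q) h1, ?_⟩
  unfold pw
  rw [Units.val_mk0, ZMod.val_natCast, Nat.mod_eq_of_lt hi, hi']

end roots

section val

variable {q : ℕ} [Fact q.Prime] {n : ℕ}

lemma val_root_le (V : ValuationSubring Qb) {ζ : Qb} (hζ : IsPrimitiveRoot ζ q) (i : ℕ) :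
    V.valuation (1 - ζ ^ i) ≤ V.valuation (1 - ζ) := by
  have hint : IsIntegral ℤ ζ := hζ.isIntegral (Fact.out : q.Prime).pos
  have h1 : (1 : Qb) - ζ ^ i = (1 - ζ) * ∑ j ∈ Finset.range i, ζ ^ j := (mul_neg_geom_sum ζ i).symm
  rw [h1, map_mul]
  have h2 : V.valuation (∑ j ∈ Finset.range i, ζ ^ j) ≤ 1 := by
    apply integral_mem
    exact IsIntegral.sum _ fun j _ => hint.pow j
  calc V.valuation (1 - ζ) * V.valuation (∑ j ∈ Finset.range i, ζ ^ j)
      ≤ V.valuation (1 - ζ) * 1 := by gcongr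
    _ = _ := mul_one _

lemma val_root_eq (V : ValuationSubring Qb) {ζ ζ' : Qb} (hζ : IsPrimitiveRoot ζ q)
    (hζ' : IsPrimitiveRoot ζ' q) : V.valuation (1 - ζ') = V.valuation (1 - ζ) := by
  apply le_antisymm
  · obtain ⟨k, hk⟩ := exists_unit hζ hζ'
    rw [← hk]
    exact val_root_le V hζ _
  · obtain ⟨k, hk⟩ := exists_unit hζ' hζ
    rw [← hk]
    exact val_root_le V hζ' _

lemma val_root_pow (V : ValuationSubring Qb) {ζ : Qb} (hζ : IsPrimitiveRoot ζ q) :
    V.valuation (1 - ζ) ^ (q - 1) = V.valuation (q : Qb) := by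
  have hq : q.Prime := Fact.out
  obtain ⟨m, rfl⟩ : ∃ m, q = m + 1 := ⟨q - 1, by have := hq.pos; omega⟩
  have h1 := hζ.prod_one_sub_pow_eq_order
  have h2 : V.valuation (∏ k ∈ Finset.range m, (1 - ζ ^ (k + 1))) = V.valuation (1 - ζ) ^ m := by
    rw [map_prod]
    rw [Finset.prod_congr rfl (g := fun _ => V.valuation (1 - ζ))]
    · simp
    · intro k hk
      rw [Finset.mem_range] at hk
      apply val_root_eq V hζ
      apply hζ.pow_of_coprime
      rw [Nat.coprime_comm]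
      apply (Nat.Prime.coprime_iff_not_dvd hq).mpr
      intro h
      have := Nat.le_of_dvd (by omega) h
      omega
  rw [h1] at h2
  rw [Nat.add_sub_cancel, ← h2]
  push_cast
  rfl

lemma val_varpi (V : ValuationSubring Qb) {ζ : Qb} (hζ : IsPrimitiveRoot ζ q) :
    V.valuation (varpi q n ζ) = V.valuation (1 - ζ) ^ Nat.card (Hs q n) := by
  classical
  unfold varpi
  rw [map_prod]
  rw [Finset.prod_congr rfl (g := fun _ => V.valuation (1 - ζ))]
  · rw [Finset.prod_const, Finset.card_univ, Nat.card_eq_fintype_card]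
  · intro h _
    exact val_root_eq V hζ (prim_pw hζ _)

lemma val_varpi_pow (V : ValuationSubring Qb) {ζ : Qb} (hζ : IsPrimitiveRoot ζ q)
    (h : 2 ^ n ∣ q - 1) : V.valuation (varpi q n ζ) ^ (2 ^ n) = V.valuation (q : Qb) := by
  rw [val_varpi V hζ, ← pow_mul, card_Hs q n h, val_root_pow V hζ]

lemma val_conj_varpi (V : ValuationSubring Qb) {ζ : Qb} (hζ : IsPrimitiveRoot ζ q)
    (σ : Qb ≃ₐ[ℚ] Qb) : V.valuation (σ (varpi q n ζ)) = V.valuation (varpi q n ζ) := by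
  have h1 : σ (varpi q n ζ) = varpi q n (σ ζ) := map_varpi (σ : Qb →+* Qb) ζ
  have h2 : IsPrimitiveRoot (σ ζ) q := hζ.map_of_injective σ.injective
  rw [h1, val_varpi V hζ, val_varpi V h2, val_root_eq V hζ h2]

end val

end Pool.Agent.X285
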