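import Mathlib
import Pool.Agent.X285.Unr
import Pool.Agent.W70.LD.Prod

set_option autoImplicit false

/-!
# Heights in totally ramified extensions
-/

namespace Pool.Agent.X285

open NumberField Height Module Polynomial
open Pool.Agent.Helper259.AbsHt
open Pool.Agent.H58P (Qb ht qb_isIntegral)
open Pool.Agent.H58B (ht_conj)
open Pool.Agent.W70.LD (height_prod_ge)

/-- if the nonzero terms of a sum have pairwise distinct valuations then the valuation of the sum
is at least the valuation of each term -/
lemma le_val_sum {ι Γ : Type*} [LinearOrderedCommGroupWithZero Γ] (v : Valuation Qb Γ)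
    (s : Finset ι) (f : ι → Qb)
    (h : ∀ i ∈ s, ∀ j ∈ s, v (f i) ≠ 0 → v (f i) = v (f j) → i = j) :
    ∀ i ∈ s, v (f i) ≤ v (∑ j ∈ s, f j) := by
  classical
  intro i hi
  obtain ⟨k, hk, hmax⟩ := s.exists_max_image (fun j => v (f j)) ⟨i, hi⟩
  by_cases h0 : v (f k) = 0
  · have := hmax i hi
    rw [h0, le_zero_iff] at this
    rw [this]
    exact zero_le
  · have h1 : v (∑ j ∈ s, f j) = v (f k) := by
      apply Valuation.map_sum_eq_of_lt v hk
      · intro j hj
        rw [Finset.mem_sdiff, Finset.mem_singleton] at hj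
        refine lt_of_le_of_ne (hmax j hj.1) fun h2 => hj.2 ?_
        exact (h k hk j hj.1 h0 h2.symm).symm
    rw [h1]
    exact hmax i hi

section loc

variable (M : IntermediateField ℚ Qb) [NumberField M] (q : ℕ) (hq : q.Prime)
  (hd : ¬ (q : ℤ) ∣ discr M) (e : ℕ) (V : ValuationSubring Qb)
  (hV : V.valuation (q : Qb) < 1)

include hq hd hV

lemma term_val (ϖ : Qb) (hϖ : V.valuation ϖ ^ e = V.valuation (q : Qb)) (a : M) (ha : a ≠ 0)
    (k : ℕ) : ∃ m : ℤ, V.valuation ((a : Qb) * ϖ ^ k) ^ e = V.valuation (q : Qb) ^ (e * m + k) := by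
  obtain ⟨m, hm⟩ := val_zpow M q hq hd V hV a ha
  have hq0 : V.valuation (q : Qb) ≠ 0 := by
    rw [Valuation.ne_zero_iff]
    exact_mod_cast hq.ne_zero
  refine ⟨m, ?_⟩
  rw [map_mul, map_pow, mul_pow, hm, ← pow_mul, mul_comm k e, pow_mul, hϖ, zpow_add₀ hq0,
    zpow_natCast, mul_comm (e : ℤ) m, zpow_mul, zpow_natCast]

/-- the terms of an expansion have distinct valuations -/
lemma term_inj (ϖ : Qb) (hϖ : V.valuation ϖ ^ e = V.valuation (q : Qb)) (a : ℕ → M) :
    ∀ i ∈ Finset.range e, ∀ j ∈ Finset.range e,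
      V.valuation ((a i : Qb) * ϖ ^ i) ≠ 0 →
      V.valuation ((a i : Qb) * ϖ ^ i) = V.valuation ((a j : Qb) * ϖ ^ j) → i = j := by
  intro i hi j hj h0 hij
  rw [Finset.mem_range] at hi hj
  have hq0 : V.valuation (q : Qb) ≠ 0 := by
    rw [Valuation.ne_zero_iff]
    exact_mod_cast hq.ne_zero
  have hai : a i ≠ 0 := by
    intro h
    apply h0
    rw [h]
    simp
  have haj : a j ≠ 0 := by
    intro h
    apply h0
    rw [hij, h]
    simp
  obtain ⟨m, hm⟩ := term_val M q hq hd e V hV ϖ hϖ (a i) hai i
  obtain ⟨n, hn⟩ := term_val M q hq hd e V hV ϖ hϖ (a j) haj j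
  rw [hij, hn] at hm
  have h1 : (e * n + j : ℤ) = e * m + i :=
    zpow_right_injective₀ (zero_lt_iff.mpr hq0) hV.ne hm
  have h2 : ((i : ℤ) - j) = e * (n - m) := by linarith
  have h3 : (n - m) = 0 := by
    by_contra h4
    have h5 : (e : ℤ) ≤ |(i : ℤ) - j| := by
      rw [h2, abs_mul]
      have := Int.one_le_abs h4
      have h6 : |(e : ℤ)| = e := abs_of_nonneg (by positivity)
      rw [h6]
      nlinarith
    have h6 : |(i : ℤ) - j| < e := by
      rw [abs_lt]
      constructor <;> omega
    omega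
  rw [h3, mul_zero] at h2
  omega

theorem local_ineq (he : 0 < e) (ϖ : Qb) (hϖ : V.valuation ϖ ^ e = V.valuation (q : Qb))
    (σ : Qb ≃ₐ[M] Qb) (hσ : V.valuation (σ ϖ) = V.valuation ϖ) (a : ℕ → M) (α : Qb)
    (hα : α = ∑ k ∈ Finset.range e, (a k : Qb) * ϖ ^ k) :
    V.valuation (σ α - α) ^ e ≤ V.valuation (q : Qb) *
      (max 1 (V.valuation α) * max 1 (V.valuation (σ α))) ^ e := by
  classical
  have hq0 : V.valuation (q : Qb) ≠ 0 := by
    rw [Valuation.ne_zero_iff]
    exact_mod_cast hq.ne_zero
  set g := V.valuation (q : Qb) with hg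
  have hσϖ : V.valuation (σ ϖ) ^ e = g := by rw [hσ, hϖ]
  have hσα : σ α = ∑ k ∈ Finset.range e, (a k : Qb) * (σ ϖ) ^ k := by
    rw [hα, map_sum]
    refine Finset.sum_congr rfl fun k _ => ?_
    rw [map_mul, map_pow]
    congr 1
    exact σ.commutes (a k)
  have hle : ∀ k ∈ Finset.range e, V.valuation ((a k : Qb) * ϖ ^ k) ≤ V.valuation α := by
    rw [hα]
    exact le_val_sum V.valuation _ _ (term_inj M q hq hd e V hV ϖ hϖ a)
  have hle' : ∀ k ∈ Finset.range e, V.valuation ((a k : Qb) * ϖ ^ k) ≤ V.valuation (σ α) := by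
    intro k hk
    have h1 := le_val_sum V.valuation _ _ (term_inj M q hq hd e V hV (σ ϖ) hσϖ a) k hk
    rw [← hσα] at h1
    rw [map_mul, map_pow, ← hσ, ← map_pow, ← map_mul]
    exact h1
  have heq : V.valuation (σ α) = V.valuation α := by
    apply le_antisymm
    · rw [hσα]
      apply Valuation.map_sum_le
      intro k hk
      have := hle k hk
      rwa [map_mul, map_pow, hσ, ← map_pow, ← map_mul]
    · conv_lhs => rw [hα]
      apply Valuation.map_sum_le
      intro k hk
      exact hle' k hk
  by_cases h1 : V.valuation α ≤ 1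
  · rw [heq, max_eq_left h1, one_mul, one_pow, mul_one]
    by_contra hcon
    rw [not_le] at hcon
    have hdiff : σ α - α = ∑ k ∈ Finset.range e, (a k : Qb) * ((σ ϖ) ^ k - ϖ ^ k) := by
      rw [hσα]
      conv_lhs => rw [hα]
      rw [← Finset.sum_sub_distrib]
      exact Finset.sum_congr rfl fun k _ => by ring
    have h2 : ∀ k ∈ Finset.range e,
        V.valuation ((a k : Qb) * ((σ ϖ) ^ k - ϖ ^ k)) < V.valuation (σ α - α) := by
      intro k hk
      have hne : V.valuation (σ α - α) ≠ 0 := by
        intro h0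
        rw [h0, zero_pow he.ne'] at hcon
        exact not_lt.mpr zero_le hcon
      rcases Nat.eq_zero_or_pos k with h0 | h0
      · subst h0
        simp only [pow_zero, sub_self, mul_zero, map_zero]
        exact zero_lt_iff.mpr hne
      · by_cases ha : a k = 0
        · rw [ha]
          simp only [ZeroMemClass.coe_zero, zero_mul, map_zero]
          exact zero_lt_iff.mpr hne
        · obtain ⟨m, hm⟩ := term_val M q hq hd e V hV ϖ hϖ (a k) ha k
          have h3 := (hle k hk).trans h1
          have h4 : g ^ (e * m + k : ℤ) ≤ 1 := by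
            rw [← hm]
            exact pow_le_one₀ zero_le h3
          have h5 : (0 : ℤ) ≤ e * m + k := by
            by_contra h6
            rw [not_le] at h6
            have h7 : 1 < g ^ (e * m + k : ℤ) :=
              one_lt_zpow_of_neg₀ (zero_lt_iff.mpr hq0) hV h6
            exact absurd h4 (not_le.mpr h7)
          have h6 : (1 : ℤ) ≤ e * m + k := by
            rcases h5.lt_or_eq with h7 | h7
            · omega
            · exfalso
              rw [Finset.mem_range] at hk
              have h8 : (k : ℤ) = e * (-m) := by linarith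
              have h9 : 0 < -m := by
                by_contra h10
                have : (k : ℤ) ≤ 0 := by
                  rw [h8]
                  exact mul_nonpos_of_nonneg_of_nonpos (by positivity) (by omega)
                omega
              have : (e : ℤ) ≤ k := by
                rw [h8]
                nlinarith
              omega
          have h7 : V.valuation ((a k : Qb) * ϖ ^ k) ^ e ≤ g := by
            rw [hm]
            calc g ^ (e * m + k : ℤ) ≤ g ^ (1 : ℤ) :=
                  zpow_le_zpow_right_of_le_one₀ (zero_lt_iff.mpr hq0) hV.le h6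
              _ = g := zpow_one g
          have h8 : V.valuation ((a k : Qb) * ((σ ϖ) ^ k - ϖ ^ k)) ≤
              V.valuation ((a k : Qb) * ϖ ^ k) := by
            rw [map_mul, map_mul]
            apply mul_le_mul_right
            apply Valuation.map_sub_le
            · rw [map_pow, map_pow, hσ]
            · exact le_rfl
          refine h8.trans_lt ?_
          exact lt_of_pow_lt_pow_left₀ e zero_le (h7.trans_lt hcon)
    have hne : V.valuation (σ α - α) ≠ 0 := by
      intro h0
      rw [h0, zero_pow he.ne'] at hcon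
      exact not_lt.mpr zero_le hcon
    have h3 := Valuation.map_sum_lt V.valuation hne h2
    rw [← hdiff] at h3
    exact lt_irrefl _ h3
  · rw [not_le] at h1
    rw [heq, max_eq_right h1.le]
    -- the value of `α` is the value of one of the terms
    obtain ⟨k, hk, hkα⟩ : ∃ k ∈ Finset.range e, V.valuation ((a k : Qb) * ϖ ^ k) = V.valuation α := by
      by_contra hcon
      push Not at hcon
      have h2 : V.valuation α < V.valuation α := by
        conv_lhs => rw [hα]
        apply Valuation.map_sum_lt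
        · exact (zero_lt_one.trans h1).ne'
        · intro k hk
          exact lt_of_le_of_ne (hle k hk) (hcon k hk)
      exact lt_irrefl _ h2
    have ha : a k ≠ 0 := by
      intro h0
      rw [h0] at hkα
      simp only [ZeroMemClass.coe_zero, zero_mul, map_zero] at hkα
      rw [← hkα] at h1
      exact absurd h1 (not_lt.mpr zero_le)
    obtain ⟨m, hm⟩ := term_val M q hq hd e V hV ϖ hϖ (a k) ha k
    rw [hkα] at hm
    have h2 : 1 < V.valuation α ^ e := one_lt_pow₀ h1 he.ne'
    have h3 : (e * m + k : ℤ) < 0 := by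
      by_contra h4
      rw [not_lt] at h4
      rw [hm] at h2
      refine absurd h2 (not_lt.mpr ?_)
      calc g ^ (e * m + k : ℤ) ≤ g ^ (0 : ℤ) :=
            zpow_le_zpow_right_of_le_one₀ (zero_lt_iff.mpr hq0) hV.le h4
        _ = 1 := zpow_zero g
    have h4 : 1 ≤ g * V.valuation α ^ e := by
      rw [hm]
      have : g * g ^ (e * m + k : ℤ) = g ^ (1 + (e * m + k) : ℤ) := by
        rw [zpow_add₀ hq0 1 (e * m + k : ℤ), zpow_one]
      rw [this]
      rcases (show (1 + (e * m + k) : ℤ) ≤ 0 by omega).lt_or_eq with h5 | h5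
      · exact (one_lt_zpow_of_neg₀ (zero_lt_iff.mpr hq0) hV h5).le
      · rw [h5, zpow_zero]
    have h5 : V.valuation (σ α - α) ≤ V.valuation α := by
      apply Valuation.map_sub_le
      · rw [heq]
      · exact le_rfl
    calc V.valuation (σ α - α) ^ e ≤ V.valuation α ^ e := pow_le_pow_left₀ zero_le h5 e
      _ = 1 * V.valuation α ^ e := (one_mul _).symm
      _ ≤ (g * V.valuation α ^ e) * V.valuation α ^ e := mul_le_mul_left h4 _
      _ = g * (V.valuation α * V.valuation α) ^ e := by rw [mul_pow, mul_assoc]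

end loc

/-- the elements of a totally ramified extension which are not in the base field have large
height -/
theorem ht_lower (M : IntermediateField ℚ Qb) [NumberField M] (q : ℕ) (hq : q.Prime)
    (hd : ¬ (q : ℤ) ∣ discr M) (e : ℕ) (he : 0 < e) (ϖ : Qb)
    (hϖ : ∀ V : ValuationSubring Qb, V.valuation (q : Qb) < 1 →
      V.valuation ϖ ^ e = V.valuation (q : Qb))
    (hσ : ∀ (V : ValuationSubring Qb) (σ : Qb ≃ₐ[ℚ] Qb), V.valuation (q : Qb) < 1 →
      V.valuation (σ ϖ) = V.valuation ϖ)
    (hdeg : (minpoly M ϖ).natDegree ≤ e) (α : Qb) (hα : α ∈ IntermediateField.adjoin M {ϖ})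
    (hαM : α ∉ M) : Real.log q / (2 * e) - Real.log 2 / 2 ≤ ht α := by
  classical
  have hint : IsIntegral M ϖ := (qb_isIntegral ϖ).tower_top
  -- the expansion
  obtain ⟨a, ha⟩ : ∃ a : ℕ → M, α = ∑ k ∈ Finset.range e, (a k : Qb) * ϖ ^ k := by
    have h1 : α ∈ (Algebra.adjoin M {ϖ} : Subalgebra M Qb) := by
      rw [← IntermediateField.adjoin_simple_toSubalgebra_of_isAlgebraic hint.isAlgebraic]
      exact hα
    rw [Algebra.adjoin_singleton_eq_range_aeval] at h1
    obtain ⟨p, hp⟩ := h1
    refine ⟨fun k => (p %ₘ minpoly M ϖ).coeff k, ?_⟩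
    have h2 : aeval ϖ (p %ₘ minpoly M ϖ) = α := by
      rw [← hp]
      have := congrArg (aeval ϖ) (modByMonic_add_div p (minpoly M ϖ))
      rw [map_add, map_mul, minpoly.aeval, zero_mul, add_zero] at this
      exact this
    rw [← h2, aeval_eq_sum_range' (n := e)]
    · exact Finset.sum_congr rfl fun k _ => by rw [Algebra.smul_def]; rfl
    · exact (natDegree_modByMonic_lt p (minpoly.monic hint) (minpoly.ne_one M ϖ)).trans_le hdeg
  -- an automorphism which moves `α`
  obtain ⟨σ, hσα⟩ : ∃ σ : Qb ≃ₐ[M] Qb, σ α ≠ α := by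
    by_contra hcon
    push Not at hcon
    have : IsAlgClosure M Qb := ⟨inferInstance, ⟨fun z =>
        ((qb_isIntegral z).tower_top (A := M)).isAlgebraic⟩⟩
    have hgal : IsGalois M Qb := IsAlgClosure.isGalois M Qb
    have h1 := (InfiniteGalois.mem_bot_iff_fixed (k := M) α).mpr hcon
    rw [IntermediateField.mem_bot] at h1
    obtain ⟨z, hz⟩ := h1
    exact hαM (hz ▸ z.2)
  have hσ' : ∀ V : ValuationSubring Qb, V.valuation (q : Qb) < 1 →
      V.valuation (σ ϖ) = V.valuation ϖ := fun V hV => hσ V (σ.restrictScalars ℚ) hV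
  have hht : ht (σ α) = ht α := ht_conj (σ.restrictScalars ℚ) α
  have hq0 : (q : Qb) ≠ 0 := by exact_mod_cast hq.ne_zero
  have hD : (σ α - α) ^ e / (q : Qb) ≠ 0 :=
    div_ne_zero (pow_ne_zero _ (sub_ne_zero.mpr hσα)) hq0
  have hq' : (0 : ℝ) < q := by exact_mod_cast hq.pos
  have hmain := height_prod_ge (J := Fin e ⊕ Fin e) ((σ α - α) ^ e / (q : Qb)) hD
    (fun j => Sum.elim (fun _ => α) (fun _ => σ α) j) ((q : ℝ) / 2 ^ e) (by positivity) ?_ ?_
  · rw [Fintype.sum_sum_type] at hmain
    simp only [Sum.elim_inl, Sum.elim_inr, Finset.sum_const, Finset.card_univ, Fintype.card_fin,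
      nsmul_eq_mul] at hmain
    rw [hht, Real.log_div hq'.ne' (by positivity), Real.log_pow] at hmain
    have he' : (0 : ℝ) < e := by exact_mod_cast he
    rw [div_sub_div _ _ (by positivity) (by norm_num), div_le_iff₀ (by positivity)]
    nlinarith
  · intro V
    rw [Fintype.prod_sum_type]
    simp only [Sum.elim_inl, Sum.elim_inr, Finset.prod_const, Finset.card_univ, Fintype.card_fin]
    rw [← mul_pow, map_div₀, map_pow]
    have hqV : V.valuation (q : Qb) ≠ 0 := by
      rw [Valuation.ne_zero_iff]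
      exact hq0
    by_cases hV : V.valuation (q : Qb) < 1
    · rw [div_le_iff₀ (zero_lt_iff.mpr hqV), mul_comm _ (V.valuation (q : Qb))]
      exact local_ineq M q hq hd e V hV he ϖ (hϖ V hV) σ (hσ' V hV) a α ha
    · have h1 : V.valuation (q : Qb) = 1 := le_antisymm (nat_le_one V q) (not_lt.mp hV)
      rw [h1, div_one]
      apply pow_le_pow_left₀ zero_le
      refine (Valuation.map_sub _ _ _).trans ?_
      apply max_le
      · calc V.valuation (σ α) = 1 * V.valuation (σ α) := (one_mul _).symm
          _ ≤ max 1 (V.valuation α) * max 1 (V.valuation (σ α)) :=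
            mul_le_mul' (le_max_left _ _) (le_max_right _ _)
      · calc V.valuation α = V.valuation α * 1 := (mul_one _).symm
          _ ≤ max 1 (V.valuation α) * max 1 (V.valuation (σ α)) :=
            mul_le_mul' (le_max_right _ _) (le_max_left _ _)
  · intro φ
    rw [Fintype.prod_sum_type]
    simp only [Sum.elim_inl, Sum.elim_inr, Finset.prod_const, Finset.card_univ, Fintype.card_fin]
    rw [← mul_pow, map_div₀, map_pow, norm_div, norm_pow, map_natCast, Complex.norm_natCast]
    have e1 : (q : ℝ) / 2 ^ e * (‖φ (σ α - α)‖ ^ e / q) = (‖φ (σ α - α)‖ / 2) ^ e := by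
      rw [div_pow]
      field_simp
    rw [e1]
    apply pow_le_pow_left₀ (by positivity)
    rw [map_sub]
    have h1 : ‖φ (σ α) - φ α‖ ≤ ‖φ (σ α)‖ + ‖φ α‖ := norm_sub_le _ _
    have h2 : ‖φ (σ α)‖ ≤ max ‖φ α‖ 1 * max ‖φ (σ α)‖ 1 := by
      calc ‖φ (σ α)‖ = 1 * ‖φ (σ α)‖ := (one_mul _).symm
        _ ≤ _ := mul_le_mul (le_max_right _ _) (le_max_left _ _) (norm_nonneg _) (by positivity)
    have h3 : ‖φ α‖ ≤ max ‖φ α‖ 1 * max ‖φ (σ α)‖ 1 := by
      calc ‖φ α‖ = ‖φ α‖ * 1 := (mul_one _).symm
        _ ≤ _ := mul_le_mul (le_max_left _ _) (le_max_right _ _) zero_le_one (by positivity)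
    linarith

end Pool.Agent.X285
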