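import Mathlib
import Pool.Agent.X285.Cyc
import Pool.Agent.X285.Ram

set_option autoImplicit false

/-!
# Degrees of the uniformizers
-/

namespace Pool.Agent.X285

open Polynomial
open Pool.Agent.H58P (Qb qb_isIntegral)

lemma gal_Qb : IsGalois ℚ Qb := by
  have : IsAlgClosure ℚ Qb := ⟨inferInstance, ⟨fun z => (qb_isIntegral z).isAlgebraic⟩⟩
  exact IsAlgClosure.isGalois ℚ Qb

section glob

variable {q : ℕ} [Fact q.Prime] {n : ℕ}

open Classical in
/-- the set of conjugates of the uniformizer -/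
noncomputable def conj (q : ℕ) [Fact q.Prime] (n : ℕ) {R : Type*} [CommRing R] (ζ : R) : Finset R :=
  Finset.univ.image fun k : (ZMod q)ˣ => varpi q n (pw q ζ (k : ZMod q))

lemma card_conj_le {R : Type*} [CommRing R] {ζ : R} (hζ : ζ ^ q = 1) (h : 2 ^ n ∣ q - 1) :
    (conj q n ζ).card ≤ 2 ^ n := by
  classical
  have hc := card_Hs q n h
  have h1 : Nat.card (ZMod q)ˣ = q - 1 := by
    rw [Nat.card_eq_fintype_card, ZMod.card_units_eq_totient, Nat.totient_prime Fact.out]
  have h2 := Finset.mul_card_image_le_card (Finset.univ : Finset (ZMod q)ˣ)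
    (f := fun k : (ZMod q)ˣ => varpi q n (pw q ζ (k : ZMod q))) (Nat.card (Hs q n)) (by
      intro b hb
      rw [Finset.mem_image] at hb
      obtain ⟨k, _, hk⟩ := hb
      have h3 : Nat.card (Hs q n) = (Finset.univ.image fun t : Hs q n => k * (t : (ZMod q)ˣ)).card := by
        rw [Finset.card_image_of_injective, Finset.card_univ, Nat.card_eq_fintype_card]
        intro a b hab
        exact Subtype.ext (mul_left_cancel hab)
      rw [h3]
      apply Finset.card_le_card
      intro x hx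
      rw [Finset.mem_image] at hx
      obtain ⟨t, _, ht⟩ := hx
      rw [Finset.mem_filter]
      refine ⟨Finset.mem_univ _, ?_⟩
      rw [← hk, ← ht, Units.val_mul, ← pw_mul hζ, varpi_pw (pw_pow hζ _) _ t.2])
  rw [Finset.card_univ, ← Nat.card_eq_fintype_card, h1, ← hc] at h2
  have hpos : 0 < Nat.card (Hs q n) := Nat.card_pos
  exact Nat.le_of_mul_le_mul_left h2 hpos

lemma natDegree_le {ζ : Qb} (hζ : IsPrimitiveRoot ζ q) (h : 2 ^ n ∣ q - 1) :
    (minpoly ℚ (varpi q n ζ)).natDegree ≤ 2 ^ n := by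
  classical
  have : IsGalois ℚ Qb := gal_Qb
  refine le_trans ?_ (card_conj_le hζ.pow_eq_one h)
  have hint : IsIntegral ℚ (varpi q n ζ) := qb_isIntegral _
  have hsep : (minpoly ℚ (varpi q n ζ)).Separable := (minpoly.irreducible hint).separable
  rw [← Polynomial.card_rootSet_eq_natDegree (K := Qb) hsep (IsAlgClosed.splits _)]
  rw [← Set.toFinset_card]
  apply Finset.card_le_card
  intro x hx
  rw [Set.mem_toFinset, Polynomial.mem_rootSet] at hx
  obtain ⟨σ, hσ⟩ := minpoly.exists_algEquiv_of_root' (L := Qb) hint.isAlgebraic hx.2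
  obtain ⟨k, hk⟩ := exists_unit hζ (hζ.map_of_injective σ.injective)
  unfold conj
  rw [Finset.mem_image]
  refine ⟨k, Finset.mem_univ _, ?_⟩
  rw [hk, ← hσ]
  exact (map_varpi (σ : Qb →+* Qb) ζ).symm

lemma natDegree_over_le (M : IntermediateField ℚ Qb) {ζ : Qb} (hζ : IsPrimitiveRoot ζ q)
    (h : 2 ^ n ∣ q - 1) : (minpoly M (varpi q n ζ)).natDegree ≤ 2 ^ n := by
  refine le_trans ?_ (natDegree_le hζ h)
  have h1 : minpoly M (varpi q n ζ) ∣ (minpoly ℚ (varpi q n ζ)).map (algebraMap ℚ M) :=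
    minpoly.dvd_map_of_isScalarTower ℚ M _
  have h2 := Polynomial.natDegree_le_of_dvd h1
    ((Polynomial.map_ne_zero_iff (algebraMap ℚ M).injective).mpr
      (minpoly.ne_zero (qb_isIntegral _)))
  rwa [Polynomial.natDegree_map] at h2

/-- all conjugates of the uniformizer lie in the field it generates -/
lemma conj_mem {ζ : Qb} (hζ : IsPrimitiveRoot ζ q) (σ : Qb ≃ₐ[ℚ] Qb) :
    σ (varpi q n ζ) ∈ IntermediateField.adjoin ℚ {varpi q n ζ} := by
  have : IsGalois ℚ Qb := gal_Qb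
  rw [← InfiniteGalois.fixedField_fixingSubgroup (IntermediateField.adjoin ℚ {varpi q n ζ})]
  rw [IntermediateField.mem_fixedField_iff]
  intro τ hτ
  have h1 : τ (varpi q n ζ) = varpi q n ζ := by
    rw [IntermediateField.mem_fixingSubgroup_iff] at hτ
    exact hτ _ (IntermediateField.mem_adjoin_simple_self ℚ _)
  obtain ⟨k, hk⟩ := exists_unit hζ (hζ.map_of_injective σ.injective)
  obtain ⟨l, hl⟩ := exists_unit hζ (hζ.map_of_injective τ.injective)
  have e1 : σ (varpi q n ζ) = varpi q n (σ ζ) := map_varpi (σ : Qb →+* Qb) ζ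
  have e2 : τ (varpi q n (σ ζ)) = varpi q n (τ (σ ζ)) := map_varpi (τ : Qb →+* Qb) _
  have e3 : σ (varpi q n (τ ζ)) = varpi q n (σ (τ ζ)) := map_varpi (σ : Qb →+* Qb) _
  have e4 : τ (varpi q n ζ) = varpi q n (τ ζ) := map_varpi (τ : Qb →+* Qb) ζ
  have e5 : τ (σ ζ) = σ (τ ζ) := by
    rw [← hk, ← hl]
    have h2 : τ (pw q ζ (k : ZMod q)) = pw q (τ ζ) (k : ZMod q) := map_pw (τ : Qb →+* Qb) ζ _
    have h3 : σ (pw q ζ (l : ZMod q)) = pw q (σ ζ) (l : ZMod q) := map_pw (σ : Qb →+* Qb) ζ _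
    rw [h2, h3, ← hk, ← hl, pw_mul hζ.pow_eq_one, pw_mul hζ.pow_eq_one, mul_comm]
  rw [e1, e2, e5, ← e3, ← e4, h1, e1]

end glob

section low

variable {q : ℕ} [Fact q.Prime] {n : ℕ}

/-- there is a valuation ring of `Qb` above `q` -/
lemma exists_val (q : ℕ) [Fact q.Prime] : ∃ V : ValuationSubring Qb, V.valuation (q : Qb) < 1 := by
  have hq : q.Prime := Fact.out
  set A : Subring Qb := (Int.castRingHom Qb).range with hA
  set x : A := ⟨(q : Qb), ⟨(q : ℤ), by simp⟩⟩ with hx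
  have hI : Ideal.span {x} ≠ ⊤ := by
    intro h
    rw [Ideal.span_singleton_eq_top] at h
    obtain ⟨y, hy⟩ := isUnit_iff_exists_inv.mp h
    obtain ⟨y, m, rfl⟩ := y
    have h1 : (q : Qb) * ((Int.castRingHom Qb) m) = 1 := congrArg Subtype.val hy
    have h2 : ((q * m : ℤ) : Qb) = ((1 : ℤ) : Qb) := by
      push_cast
      simpa using h1
    have h3 : (q * m : ℤ) = 1 := Int.cast_injective h2
    have h4 : IsUnit (q : ℤ) := IsUnit.of_mul_eq_one _ h3
    rw [Int.ofNat_isUnit, Nat.isUnit_iff] at h4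
    exact hq.ne_one h4
  obtain ⟨V, _, hV⟩ := Ideal.image_subset_nonunits_valuationSubring _ hI
  refine ⟨V, ?_⟩
  rw [← ValuationSubring.mem_nonunits_iff]
  exact hV ⟨x, Ideal.mem_span_singleton_self x, rfl⟩

lemma le_natDegree {ζ : Qb} (hζ : IsPrimitiveRoot ζ q) (h : 2 ^ n ∣ q - 1) :
    2 ^ n ≤ (minpoly ℚ (varpi q n ζ)).natDegree := by
  have hq : q.Prime := Fact.out
  by_contra hcon
  rw [not_le] at hcon
  obtain ⟨V, hV⟩ := exists_val q
  have hint : IsIntegral ℚ (varpi q n ζ) := qb_isIntegral _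
  have hϖ := val_varpi_pow V hζ h
  have hnf : NumberField (⊥ : IntermediateField ℚ Qb) := {}
  have hd : NumberField.discr (⊥ : IntermediateField ℚ Qb) = 1 := by
    rw [NumberField.discr_eq_discr_of_algEquiv _ (IntermediateField.botEquiv ℚ Qb)]
    exact NumberField.discr_rat
  have hd' : ¬ (q : ℤ) ∣ NumberField.discr (⊥ : IntermediateField ℚ Qb) := by
    rw [hd]
    intro h
    have := Int.le_of_dvd one_pos h
    have := hq.two_le
    omega
  set a : ℕ → (⊥ : IntermediateField ℚ Qb) := fun k =>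
    algebraMap ℚ _ ((minpoly ℚ (varpi q n ζ)).coeff k) with ha
  set d := (minpoly ℚ (varpi q n ζ)).natDegree with hd2
  have h1 := le_val_sum V.valuation (Finset.range (2 ^ n))
    (fun i => (a i : Qb) * (varpi q n ζ) ^ i)
    (fun i hi j hj => term_inj ⊥ q hq hd' (2 ^ n) V hV (varpi q n ζ) hϖ a i hi j hj)
    d (Finset.mem_range.mpr hcon)
  have h2 : ∑ i ∈ Finset.range (2 ^ n), (a i : Qb) * (varpi q n ζ) ^ i = 0 := by
    have h3 := minpoly.aeval ℚ (varpi q n ζ)
    rw [aeval_eq_sum_range' (n := 2 ^ n) hcon] at h3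
    rw [← h3]
    refine Finset.sum_congr rfl fun k _ => ?_
    rw [Algebra.smul_def]
    rfl
  have h3 : (a d : Qb) = 1 := by
    have : (minpoly ℚ (varpi q n ζ)).coeff d = 1 := (minpoly.monic hint).coeff_natDegree
    simp only [ha, this, map_one]
    rfl
  rw [h2, map_zero, h3, one_mul, le_zero_iff, map_pow] at h1
  have h4 : V.valuation (varpi q n ζ) = 0 := eq_zero_of_pow_eq_zero h1
  rw [h4, zero_pow (by positivity)] at hϖ
  have h5 : (q : Qb) = 0 := by
    rw [← Valuation.zero_iff V.valuation]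
    exact hϖ.symm
  exact hq.ne_zero (by exact_mod_cast h5)

lemma rootSet_subset_conj {ζ : Qb} (hζ : IsPrimitiveRoot ζ q) (x : Qb)
    (hx : x ∈ (minpoly ℚ (varpi q n ζ)).rootSet Qb) : x ∈ conj q n ζ := by
  classical
  have : IsGalois ℚ Qb := gal_Qb
  have hint : IsIntegral ℚ (varpi q n ζ) := qb_isIntegral _
  rw [Polynomial.mem_rootSet] at hx
  obtain ⟨σ, hσ⟩ := minpoly.exists_algEquiv_of_root' (L := Qb) hint.isAlgebraic hx.2
  obtain ⟨k, hk⟩ := exists_unit hζ (hζ.map_of_injective σ.injective)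
  unfold conj
  rw [Finset.mem_image]
  refine ⟨k, Finset.mem_univ _, ?_⟩
  rw [hk, ← hσ]
  exact (map_varpi (σ : Qb →+* Qb) ζ).symm

lemma le_card_conj {ζ : Qb} (hζ : IsPrimitiveRoot ζ q) (h : 2 ^ n ∣ q - 1) :
    2 ^ n ≤ (conj q n ζ).card := by
  classical
  refine (le_natDegree hζ h).trans ?_
  have hint : IsIntegral ℚ (varpi q n ζ) := qb_isIntegral _
  have hsep : (minpoly ℚ (varpi q n ζ)).Separable := (minpoly.irreducible hint).separable
  rw [← Polynomial.card_rootSet_eq_natDegree (K := Qb) hsep (IsAlgClosed.splits _),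
    ← Set.toFinset_card]
  apply Finset.card_le_card
  intro x hx
  rw [Set.mem_toFinset] at hx
  exact rootSet_subset_conj hζ x hx

end low

end Pool.Agent.X285
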