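import Mathlib
import Pool.Agent.X285.Deg

set_option autoImplicit false

/-!
# Local degrees of the uniformizers
-/

namespace Pool.Agent.X285

open Polynomial
open Pool.Agent.H58P (Qb qb_isIntegral)

section grp

variable {q : ℕ} [Fact q.Prime]

lemma sq_step (hq2 : 2 ∣ q - 1) (k0 : (ZMod q)ˣ) (hk0 : ¬ ∃ y : (ZMod q)ˣ, y ^ 2 = k0)
    (x : (ZMod q)ˣ) : ∃ (i : ℕ) (y : (ZMod q)ˣ), x = k0 ^ i * y ^ 2 := by
  set H : Subgroup (ZMod q)ˣ := (powMonoidHom 2 : (ZMod q)ˣ →* (ZMod q)ˣ).range with hH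
  have hmem : ∀ k, k ∈ H ↔ ∃ y : (ZMod q)ˣ, y ^ 2 = k := by
    intro k
    rw [hH]
    simp [MonoidHom.mem_range]
  have h1 : Nat.card (ZMod q)ˣ = q - 1 := by
    rw [Nat.card_eq_fintype_card, ZMod.card_units_eq_totient, Nat.totient_prime Fact.out]
  have hind : H.index = 2 := by
    rw [hH, IsCyclic.index_powMonoidHom_range, h1, Nat.gcd_eq_right hq2]
  by_cases hx : x ∈ H
  · obtain ⟨y, hy⟩ := (hmem x).mp hx
    exact ⟨0, y, by rw [pow_zero, one_mul, hy]⟩
  · have h2 : k0⁻¹ * x ∈ H := by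
      rw [Subgroup.mul_mem_iff_of_index_two hind]
      have h3 : k0⁻¹ ∉ H := by
        rw [inv_mem_iff]
        intro h
        exact hk0 ((hmem k0).mp h)
      exact ⟨fun h => absurd h h3, fun h => absurd h hx⟩
    obtain ⟨y, hy⟩ := (hmem _).mp h2
    refine ⟨1, y, ?_⟩
    rw [hy, pow_one, mul_inv_cancel_left]

lemma pow_step (hq2 : 2 ∣ q - 1) (k0 : (ZMod q)ˣ) (hk0 : ¬ ∃ y : (ZMod q)ˣ, y ^ 2 = k0)
    (n : ℕ) (x : (ZMod q)ˣ) : ∃ (i : ℕ) (y : (ZMod q)ˣ), x = k0 ^ i * y ^ (2 ^ n) := by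
  induction n with
  | zero => exact ⟨0, x, by simp⟩
  | succ n ih =>
    obtain ⟨i, y, hy⟩ := ih
    obtain ⟨j, z, hz⟩ := sq_step hq2 k0 hk0 y
    refine ⟨i + j * 2 ^ n, z, ?_⟩
    rw [hy, hz, mul_pow, pow_add, pow_mul, ← pow_mul z, mul_assoc, pow_succ 2 n, mul_comm 2 (2 ^ n)]

end grp

section loc

variable {q : ℕ} [Fact q.Prime] {n : ℕ} {Kv : Type*} [Field Kv] [CharZero Kv]

/-- if `q` is not a square then some automorphism acts on the `q`-th roots of unity through a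
nonsquare -/
lemma exists_nonsquare (hq4 : 4 ∣ q - 1) (hns : ¬ IsSquare (q : Kv)) {ζ : AlgebraicClosure Kv}
    (hζ : IsPrimitiveRoot ζ q) :
    ∃ (τ : AlgebraicClosure Kv ≃ₐ[Kv] AlgebraicClosure Kv) (k : (ZMod q)ˣ),
      τ ζ = pw q ζ (k : ZMod q) ∧ ¬ ∃ y : (ZMod q)ˣ, y ^ 2 = k := by
  classical
  have hq : q.Prime := Fact.out
  have hqodd : ringChar (ZMod q) ≠ 2 := by
    rw [ZMod.ringChar_zmod_n]
    rintro rfl
    omega
  by_contra hcon
  push Not at hcon
  set χ : MulChar (ZMod q) (AlgebraicClosure Kv) :=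
    (quadraticChar (ZMod q)).ringHomComp (Int.castRingHom (AlgebraicClosure Kv)) with hχ
  set s := gaussSum χ (AddChar.zmodChar q hζ.pow_eq_one) with hs
  have hs2 : s ^ 2 = (q : AlgebraicClosure Kv) := by
    rw [hs, gaussSum_sq]
    · have h1 : χ (-1) = 1 := by
        rw [hχ, MulChar.ringHomComp_apply, quadraticChar_neg_one hqodd]
        have h2 : ZMod.χ₄ (Fintype.card (ZMod q) : ℕ) = 1 := by
          rw [ZMod.card, ZMod.χ₄_nat_one_mod_four]
          have := hq.two_le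
          omega
        rw [h2]
        simp
      rw [h1, one_mul, ZMod.card]
    · rw [hχ]
      rw [MulChar.ringHomComp_ne_one_iff (RingHom.injective_int _)]
      exact quadraticChar_ne_one hqodd
    · rw [hχ]
      exact (quadraticChar_isQuadratic (ZMod q)).comp _
    · exact AddChar.zmodChar_primitive_of_primitive_root q hζ
  have hfix : ∀ τ : AlgebraicClosure Kv ≃ₐ[Kv] AlgebraicClosure Kv, τ s = s := by
    intro τ
    obtain ⟨k, hk⟩ := exists_unit hζ (hζ.map_of_injective τ.injective)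
    obtain ⟨y, hy⟩ := hcon τ k hk.symm
    have h1 : τ s = gaussSum χ (AddChar.mulShift (AddChar.zmodChar q hζ.pow_eq_one) (k : ZMod q)) := by
      rw [hs]
      unfold gaussSum
      rw [map_sum]
      refine Finset.sum_congr rfl fun a _ => ?_
      rw [map_mul]
      congr 1
      · rw [hχ, MulChar.ringHomComp_apply]
        simp
      · rw [AddChar.mulShift_apply, AddChar.zmodChar_apply, AddChar.zmodChar_apply, map_pow, ← hk]
        exact pw_mul hζ.pow_eq_one _ _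
    have h2 := gaussSum_mulShift χ (AddChar.zmodChar q hζ.pow_eq_one) k
    have h3 : χ (k : ZMod q) = 1 := by
      rw [hχ, MulChar.ringHomComp_apply, ← hy, Units.val_pow_eq_pow_val]
      rw [quadraticChar_sq_one' (Units.ne_zero y)]
      simp
    rw [h3, one_mul] at h2
    rw [h1, h2]
  have hgal : IsGalois Kv (AlgebraicClosure Kv) := by
    have : IsAlgClosure Kv (AlgebraicClosure Kv) := inferInstance
    exact IsAlgClosure.isGalois Kv _
  obtain ⟨t, ht⟩ := (InfiniteGalois.mem_bot_iff_fixed (k := Kv) s).mpr hfix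
  apply hns
  refine ⟨t, ?_⟩
  apply (algebraMap Kv (AlgebraicClosure Kv)).injective
  have ht' : algebraMap Kv (AlgebraicClosure Kv) t = s := ht
  rw [map_mul, ht', map_natCast, ← hs2, pow_two]

theorem local_degree (hn : 2 ≤ n) (h : 2 ^ n ∣ q - 1) (ι : Qb →+* AlgebraicClosure Kv)
    (hns : ¬ IsSquare (q : Kv)) {ζ : Qb} (hζ : IsPrimitiveRoot ζ q) :
    2 ^ n ≤ (minpoly Kv (ι (varpi q n ζ))).natDegree := by
  classical
  have hq4 : 4 ∣ q - 1 := (pow_dvd_pow 2 hn : 2 ^ 2 ∣ 2 ^ n).trans h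
  have hq2 : 2 ∣ q - 1 := (by norm_num : 2 ∣ 4).trans hq4
  have hζ' : IsPrimitiveRoot (ι ζ) q := hζ.map_of_injective ι.injective
  obtain ⟨τ, k0, hτ, hk0⟩ := exists_nonsquare hq4 hns hζ'
  have hgal : IsGalois Kv (AlgebraicClosure Kv) := IsAlgClosure.isGalois Kv _
  have hint : IsIntegral Kv (ι (varpi q n ζ)) :=
    (AlgebraicClosure.isAlgebraic Kv).isAlgebraic _ |>.isIntegral
  refine (le_card_conj hζ h).trans ?_
  have hsep : (minpoly Kv (ι (varpi q n ζ))).Separable := (minpoly.irreducible hint).separable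
  rw [← Polynomial.card_rootSet_eq_natDegree (K := AlgebraicClosure Kv) hsep (IsAlgClosed.splits _),
    ← Set.toFinset_card, ← Finset.card_image_of_injective (conj q n ζ) ι.injective]
  apply Finset.card_le_card
  intro x hx
  rw [Finset.mem_image] at hx
  obtain ⟨y, hy, rfl⟩ := hx
  unfold conj at hy
  rw [Finset.mem_image] at hy
  obtain ⟨k, _, rfl⟩ := hy
  obtain ⟨i, z, hz⟩ := pow_step hq2 k0 hk0 n k
  -- the action of `τ ^ i`
  have hpow : ∀ i : ℕ, ((τ ^ i : AlgebraicClosure Kv ≃ₐ[Kv] AlgebraicClosure Kv)) (ι ζ) =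
      pw q (ι ζ) ((k0 ^ i : (ZMod q)ˣ) : ZMod q) := by
    intro i
    induction i with
    | zero => simp [pw_one (ι ζ) hζ'.pow_eq_one]
    | succ i ih =>
      rw [pow_succ', AlgEquiv.mul_apply, ih]
      have h3 : τ (pw q (ι ζ) ((k0 ^ i : (ZMod q)ˣ) : ZMod q)) =
        pw q (τ (ι ζ)) ((k0 ^ i : (ZMod q)ˣ) : ZMod q) :=
        map_pw (τ : AlgebraicClosure Kv →+* AlgebraicClosure Kv) _ _
      rw [h3, hτ, pw_mul hζ'.pow_eq_one, ← Units.val_mul, ← pow_succ']
  have e1 : ι (varpi q n (pw q ζ (k : ZMod q))) =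
      (τ ^ i : AlgebraicClosure Kv ≃ₐ[Kv] AlgebraicClosure Kv) (ι (varpi q n ζ)) := by
    have h4 : (τ ^ i : AlgebraicClosure Kv ≃ₐ[Kv] AlgebraicClosure Kv) (ι (varpi q n ζ)) =
        varpi q n ((τ ^ i : AlgebraicClosure Kv ≃ₐ[Kv] AlgebraicClosure Kv) (ι ζ)) := by
      rw [map_varpi]
      exact map_varpi (((τ ^ i : AlgebraicClosure Kv ≃ₐ[Kv] AlgebraicClosure Kv)) :
        AlgebraicClosure Kv →+* AlgebraicClosure Kv) _
    rw [h4, hpow, map_varpi, map_pw, hz, Units.val_mul, ← pw_mul hζ'.pow_eq_one,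
      varpi_pw (pw_pow hζ'.pow_eq_one _) _ ((mem_Hs q n _).mpr ⟨z, rfl⟩)]
  rw [Set.mem_toFinset, Polynomial.mem_rootSet]
  refine ⟨minpoly.ne_zero hint, ?_⟩
  rw [e1]
  have h5 := congrArg (τ ^ i : AlgebraicClosure Kv ≃ₐ[Kv] AlgebraicClosure Kv)
    (minpoly.aeval Kv (ι (varpi q n ζ)))
  rw [map_zero, ← Polynomial.aeval_algHom_apply] at h5
  exact h5

end loc

end Pool.Agent.X285
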