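import Mathlib
import Pool.Agent.X285.Loc

set_option autoImplicit false

/-!
# One stage of the construction
-/

namespace Pool.Agent.X285

open Polynomial NumberField
open Pool.Agent.H58P (Qb ht qb_isIntegral)

/-- the prime used at one stage -/
lemma exists_prime (p : ℕ) (hp : p.Prime) (hp2 : p ≠ 2) (n B : ℕ) :
    ∃ q : ℕ, q.Prime ∧ B < q ∧ 2 ^ n ∣ q - 1 ∧ ¬ IsSquare (q : ZMod p) := by
  haveI : Fact p.Prime := ⟨hp⟩
  obtain ⟨a, ha⟩ := FiniteField.exists_nonsquare (F := ZMod p) (by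
    rw [ZMod.ringChar_zmod_n]; exact hp2)
  have hcop : Nat.Coprime (2 ^ n) p := by
    apply Nat.Coprime.pow_left
    rw [Nat.coprime_primes Nat.prime_two hp]
    exact hp2.symm
  obtain ⟨r, hr1, hr2⟩ := Nat.chineseRemainder hcop 1 a.val
  have hr2' : (r : ZMod p) = a := by
    have := (ZMod.natCast_eq_natCast_iff r a.val p).mpr hr2
    rw [this, ZMod.natCast_val, ZMod.cast_id', id]
  have hc1 : Nat.Coprime r (2 ^ n) := by
    have : Nat.gcd r (2 ^ n) = Nat.gcd 1 (2 ^ n) := hr1.gcd_eq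
    rw [Nat.coprime_iff_gcd_eq_one, this, Nat.gcd_one_left]
  have hc2 : Nat.Coprime r p := by
    rw [Nat.coprime_comm]
    apply (Nat.Prime.coprime_iff_not_dvd hp).mpr
    intro h
    rw [← ZMod.natCast_eq_zero_iff, hr2'] at h
    apply ha
    rw [h]
    exact IsSquare.zero
  obtain ⟨q, hqB, hq, hqr⟩ := Nat.forall_exists_prime_gt_and_modEq B
    (q := 2 ^ n * p) (a := r) (mul_ne_zero (by positivity) hp.ne_zero)
    (Nat.Coprime.mul_right hc1 hc2)
  refine ⟨q, hq, hqB, ?_, ?_⟩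
  · have h1 : q ≡ r [MOD 2 ^ n] := hqr.of_dvd (Dvd.intro _ rfl)
    have h2 : q ≡ 1 [MOD 2 ^ n] := h1.trans hr1
    exact (Nat.modEq_iff_dvd' hq.one_le).mp h2.symm
  · have h1 : q ≡ r [MOD p] := hqr.of_dvd (Dvd.intro_left _ rfl)
    rw [(ZMod.natCast_eq_natCast_iff q r p).mpr h1, hr2']
    exact ha

lemma exists_real_bound (e : ℕ) (he : 0 < e) (i : ℕ) :
    ∃ B : ℕ, ∀ q : ℕ, B < q → (i : ℝ) ≤ Real.log q / (2 * e) - Real.log 2 / 2 := by
  refine ⟨⌈Real.exp ((i + Real.log 2 / 2) * (2 * e))⌉₊, fun q hq => ?_⟩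
  have he' : (0 : ℝ) < 2 * e := by positivity
  have h1 : Real.exp ((i + Real.log 2 / 2) * (2 * e)) ≤ q :=
    (Nat.le_ceil _).trans (by exact_mod_cast hq.le)
  have h2 : (i + Real.log 2 / 2) * (2 * e) ≤ Real.log q := by
    rw [← Real.log_exp ((i + Real.log 2 / 2) * (2 * e))]
    exact Real.log_le_log (Real.exp_pos _) h1
  have h3 : i + Real.log 2 / 2 ≤ Real.log q / (2 * e) := by
    rwa [le_div_iff₀ he']
  linarith

/-- one stage of the tower -/
theorem stage (M : IntermediateField ℚ Qb) (hM : NumberField M) (p n i : ℕ) :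
    ∃ ϖ : Qb,
      (∀ α ∈ IntermediateField.adjoin M {ϖ}, α ∉ M → (i : ℝ) ≤ ht α) ∧
      (∀ σ : Qb ≃ₐ[ℚ] Qb, σ ϖ ∈ IntermediateField.adjoin ℚ {ϖ}) ∧
      (p.Prime → p ≠ 2 → ∀ (Kv : Type) [Field Kv] [CharZero Kv],
        (∀ l : ℕ, ¬ IsSquare (l : ZMod p) → ¬ IsSquare (l : Kv)) →
        ∀ ι : Qb →+* AlgebraicClosure Kv, 2 ^ n ≤ (minpoly Kv (ι ϖ)).natDegree) := by
  by_cases hpp : p.Prime ∧ p ≠ 2
  · obtain ⟨hp, hp2⟩ := hpp
    set m := max n 2 with hm
    obtain ⟨B, hB⟩ := exists_real_bound (2 ^ m) (by positivity) i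
    obtain ⟨q, hq, hqB, hdvd, hns⟩ := exists_prime p hp hp2 m (max B (discr M).natAbs)
    haveI : Fact q.Prime := ⟨hq⟩
    haveI : NeZero q := ⟨hq.ne_zero⟩
    obtain ⟨ζ, hζ⟩ := HasEnoughRootsOfUnity.exists_primitiveRoot Qb q
    have hd : ¬ (q : ℤ) ∣ discr M := by
      intro h
      have h1 := Nat.le_of_dvd (Int.natAbs_pos.mpr (discr_ne_zero M)) (Int.natCast_dvd.mp h)
      exact absurd ((le_max_right _ _).trans_lt hqB) (not_lt.mpr h1)
    refine ⟨varpi q m ζ, ?_, ?_, ?_⟩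
    · intro α hα hαM
      have h1 := ht_lower M q hq hd (2 ^ m) (by positivity) (varpi q m ζ)
        (fun V _ => val_varpi_pow V hζ hdvd) (fun V σ _ => val_conj_varpi V hζ σ)
        (natDegree_over_le M hζ hdvd) α hα hαM
      exact (hB q ((le_max_left _ _).trans_lt hqB)).trans h1
    · intro σ
      exact conj_mem hζ σ
    · intro _ _ Kv _ _ hKv ι
      refine (Nat.pow_le_pow_right (by norm_num) (le_max_left n 2)).trans ?_
      exact local_degree (le_max_right n 2) hdvd ι (hKv q hns) hζ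
  · refine ⟨0, ?_, ?_, ?_⟩
    · intro α hα hαM
      exfalso
      apply hαM
      rw [IntermediateField.adjoin_zero, IntermediateField.mem_bot] at hα
      obtain ⟨z, hz⟩ := hα
      rw [← hz]
      exact z.2
    · intro σ
      rw [map_zero]
      exact IntermediateField.zero_mem _
    · intro hp hp2
      exact absurd ⟨hp, hp2⟩ hpp

end Pool.Agent.X285
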