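import Mathlib
import Pool.Agent.X285.Stage
import Pool.Agent.H58W.HtNorth

set_option autoImplicit false

/-!
# The tower
-/

namespace Pool.Agent.X285

open Polynomial NumberField
open Pool.Agent.H58P (Qb ht qb_isIntegral)

open Classical in
/-- the element adjoined at stage `i` -/
noncomputable def gen (M : IntermediateField ℚ Qb) (i : ℕ) : Qb :=
  if h : NumberField M then
    Classical.choose (stage M h (Nat.unpair i).1 (Nat.unpair i).2 i)
  else 0

lemma gen_spec (M : IntermediateField ℚ Qb) (hM : NumberField M) (i : ℕ) :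
    (∀ α ∈ IntermediateField.adjoin M {gen M i}, α ∉ M → (i : ℝ) ≤ ht α) ∧
      (∀ σ : Qb ≃ₐ[ℚ] Qb, σ (gen M i) ∈ IntermediateField.adjoin ℚ {gen M i}) ∧
      ((Nat.unpair i).1.Prime → (Nat.unpair i).1 ≠ 2 → ∀ (Kv : Type) [Field Kv] [CharZero Kv],
        (∀ l : ℕ, ¬ IsSquare (l : ZMod (Nat.unpair i).1) → ¬ IsSquare (l : Kv)) →
        ∀ ι : Qb →+* AlgebraicClosure Kv,
          2 ^ (Nat.unpair i).2 ≤ (minpoly Kv (ι (gen M i))).natDegree) := by
  unfold gen
  rw [dif_pos hM]
  exact Classical.choose_spec (stage M hM (Nat.unpair i).1 (Nat.unpair i).2 i)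

/-- the tower of number fields -/
noncomputable def T : ℕ → IntermediateField ℚ Qb
  | 0 => ⊥
  | i + 1 => T i ⊔ IntermediateField.adjoin ℚ {gen (T i) i}

lemma T_nf (i : ℕ) : NumberField (T i) := by
  induction i with
  | zero =>
    show NumberField (⊥ : IntermediateField ℚ Qb)
    exact {}
  | succ i ih =>
    have h1 : FiniteDimensional ℚ (T i) := ih.to_finiteDimensional
    have h2 : FiniteDimensional ℚ (IntermediateField.adjoin ℚ {gen (T i) i}) :=
      IntermediateField.adjoin.finiteDimensional (qb_isIntegral _)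
    have h3 : FiniteDimensional ℚ (T (i + 1)) :=
      IntermediateField.finiteDimensional_sup (T i) (IntermediateField.adjoin ℚ {gen (T i) i})
    exact ⟨⟩

lemma T_mono : Monotone T := monotone_nat_of_le_succ fun i => le_sup_left

lemma gen_mem (i : ℕ) : gen (T i) i ∈ T (i + 1) :=
  (le_sup_right : IntermediateField.adjoin ℚ {gen (T i) i} ≤ T i ⊔ _)
    (IntermediateField.mem_adjoin_simple_self ℚ _)

lemma T_step (i : ℕ) (α : Qb) (h : α ∈ T (i + 1)) (h' : α ∉ T i) : (i : ℝ) ≤ ht α := by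
  refine (gen_spec (T i) (T_nf i) i).1 α ?_ h'
  have h1 : T (i + 1) ≤ (IntermediateField.adjoin (T i) {gen (T i) i}).restrictScalars ℚ := by
    show T i ⊔ IntermediateField.adjoin ℚ {gen (T i) i} ≤ _
    apply sup_le
    · intro x hx
      exact IntermediateField.algebraMap_mem (IntermediateField.adjoin (T i) {gen (T i) i})
        (⟨x, hx⟩ : T i)
    · rw [IntermediateField.adjoin_le_iff, Set.singleton_subset_iff]
      exact IntermediateField.mem_adjoin_simple_self (T i) _
  exact h1 h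

lemma T_conj (i : ℕ) (σ : Qb ≃ₐ[ℚ] Qb) (x : Qb) (hx : x ∈ T i) : σ x ∈ T i := by
  induction i generalizing x with
  | zero =>
    have hx' : x ∈ (⊥ : IntermediateField ℚ Qb) := hx
    rw [IntermediateField.mem_bot] at hx'
    obtain ⟨r, rfl⟩ := hx'
    rw [AlgEquiv.commutes]
    exact IntermediateField.algebraMap_mem _ r
  | succ i ih =>
    have h1 : T (i + 1) ≤ (T (i + 1)).comap (σ : Qb →ₐ[ℚ] Qb) := by
      show T i ⊔ IntermediateField.adjoin ℚ {gen (T i) i} ≤ _
      apply sup_le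
      · intro y hy
        exact T_mono (Nat.le_succ i) (ih y hy)
      · rw [IntermediateField.adjoin_le_iff, Set.singleton_subset_iff]
        exact (le_sup_right : IntermediateField.adjoin ℚ {gen (T i) i} ≤ T i ⊔ _)
          ((gen_spec (T i) (T_nf i) i).2.1 σ)
    exact h1 hx

/-- the field -/
noncomputable def FF : IntermediateField ℚ Qb := ⨆ i, T i

lemma mem_FF (x : Qb) : x ∈ FF ↔ ∃ i, x ∈ T i := by
  unfold FF
  have h : Directed (· ≤ ·) T := T_mono.directed_le
  rw [← SetLike.mem_coe, IntermediateField.coe_iSup_of_directed h, Set.mem_iUnion]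
  rfl

lemma FF_conj (σ : Qb ≃ₐ[ℚ] Qb) (x : Qb) (hx : x ∈ FF) : σ x ∈ FF := by
  rw [mem_FF] at hx ⊢
  obtain ⟨i, hi⟩ := hx
  exact ⟨i, T_conj i σ x hi⟩

lemma mem_T_of_ht (x : Qb) (hx : x ∈ FF) (N : ℕ) (hN : ht x < N) : x ∈ T N := by
  rw [mem_FF] at hx
  obtain ⟨j, hj⟩ := hx
  induction j with
  | zero => exact T_mono (Nat.zero_le N) hj
  | succ j ih =>
    by_cases h : x ∈ T j
    · exact ih h
    · have h1 := T_step j x hj h
      have h2 : j < N := by exact_mod_cast h1.trans_lt hN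
      exact T_mono h2 hj

/-- the field has the Northcott property -/
theorem FF_northcott (B : ℝ) : {α : Qb | α ∈ (FF : Set Qb) ∧ ht α ≤ B}.Finite := by
  obtain ⟨N, hN⟩ := exists_nat_gt B
  have hnf := T_nf N
  refine (Pool.Agent.H58W.northcott (Module.finrank ℚ (T N)) B).subset ?_
  rintro α ⟨hα, hαB⟩
  have h1 := mem_T_of_ht α hα N (hαB.trans_lt hN)
  refine ⟨?_, hαB⟩
  have h2 : minpoly ℚ α = minpoly ℚ (⟨α, h1⟩ : T N) := by
    rw [← minpoly.algebraMap_eq (algebraMap (T N) Qb).injective]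
    rfl
  rw [h2]
  exact minpoly.natDegree_le _

/-- large local degrees -/
theorem FF_local (p : ℕ) (hp : p.Prime) (hp2 : p ≠ 2) (n : ℕ) :
    ∃ ϖ ∈ FF, ∀ (Kv : Type) [Field Kv] [CharZero Kv],
      (∀ l : ℕ, ¬ IsSquare (l : ZMod p) → ¬ IsSquare (l : Kv)) →
      ∀ ι : Qb →+* AlgebraicClosure Kv, 2 ^ n ≤ (minpoly Kv (ι ϖ)).natDegree := by
  have h := (gen_spec (T (Nat.pair p n)) (T_nf _) (Nat.pair p n)).2.2
  rw [Nat.unpair_pair] at h
  exact ⟨gen (T (Nat.pair p n)) (Nat.pair p n), (mem_FF _).mpr ⟨_, gen_mem _⟩, h hp hp2⟩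

end Pool.Agent.X285
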