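import Mathlib
import Pool.Agent.X285.Tower

set_option autoImplicit false

/-!
# Completions of the rational field and the infinite local degrees
-/

namespace Pool.Agent.X285

open Polynomial NumberField IsDedekindDomain
open Pool.Agent.H58P (Qb ht qb_isIntegral)

/-- the base field -/
noncomputable abbrev K0 : IntermediateField ℚ Qb := ⊥

instance nf_bot : NumberField (⊥ : IntermediateField ℚ Qb) := {}

lemma int_of_integer (a : 𝓞 K0) : ∃ m : ℤ, a = (m : 𝓞 K0) := by
  have h1 : IsIntegral ℤ (a : K0) := a.isIntegral_coe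
  have h2 : IsIntegral ℤ (IntermediateField.botEquiv ℚ Qb (a : K0)) :=
    h1.map ((IntermediateField.botEquiv ℚ Qb).toAlgHom.restrictScalars ℤ)
  obtain ⟨m, hm⟩ := IsIntegrallyClosed.isIntegral_iff.mp h2
  refine ⟨m, ?_⟩
  apply RingOfIntegers.ext
  apply (IntermediateField.botEquiv ℚ Qb).injective
  rw [← hm]
  simp

lemma dvd_of_mem (v : HeightOneSpectrum (𝓞 K0)) (p : ℕ) (hp : p.Prime)
    (hpv : (p : 𝓞 K0) ∈ v.asIdeal) (t : ℤ) (ht : (t : 𝓞 K0) ∈ v.asIdeal) : (p : ℤ) ∣ t := by
  by_contra hcon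
  have h1 : IsCoprime (p : ℤ) t :=
    (Nat.prime_iff_prime_int.mp hp).irreducible.coprime_iff_not_dvd.mpr hcon
  obtain ⟨a, b, hab⟩ := h1
  apply v.isPrime.ne_top
  rw [Ideal.eq_top_iff_one]
  have h2 : ((a * p + b * t : ℤ) : 𝓞 K0) ∈ v.asIdeal := by
    push_cast
    exact v.asIdeal.add_mem (v.asIdeal.mul_mem_left _ hpv) (v.asIdeal.mul_mem_left _ ht)
  rw [hab] at h2
  simpa using h2

lemma exists_p (v : HeightOneSpectrum (𝓞 K0)) :
    ∃ p : ℕ, p.Prime ∧ (p : 𝓞 K0) ∈ v.asIdeal := by
  have hfin : Finite (𝓞 K0 ⧸ v.asIdeal) := Ideal.finiteQuotientOfFreeOfNeBot _ v.ne_bot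
  have hprime : v.asIdeal.IsPrime := v.isPrime
  obtain ⟨p, hp⟩ := CharP.exists (𝓞 K0 ⧸ v.asIdeal)
  have hp0 : p ≠ 0 := CharP.char_ne_zero_of_finite (𝓞 K0 ⧸ v.asIdeal) p
  refine ⟨p, (CharP.char_is_prime_or_zero (𝓞 K0 ⧸ v.asIdeal) p).resolve_right hp0, ?_⟩
  rw [← Ideal.Quotient.eq_zero_iff_mem, map_natCast]
  exact CharP.cast_eq_zero _ p

lemma not_square (v : HeightOneSpectrum (𝓞 K0)) (p : ℕ) (hp : p.Prime)
    (hpv : (p : 𝓞 K0) ∈ v.asIdeal) (l : ℕ) (hl : ¬ IsSquare (l : ZMod p)) :
    ¬ IsSquare (l : v.adicCompletion K0) := by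
  rintro ⟨x, hx⟩
  have hl0 : (l : 𝓞 K0) ∉ v.asIdeal := by
    intro h
    have h1 := dvd_of_mem v p hp hpv (l : ℤ) (by exact_mod_cast h)
    apply hl
    have h2 : (l : ZMod p) = 0 := by
      rw [ZMod.natCast_eq_zero_iff]
      exact_mod_cast h1
    rw [h2]
    exact IsSquare.zero
  have hval : ∀ k : K0, Valued.v (algebraMap K0 (v.adicCompletion K0) k) = v.valuation K0 k :=
    fun k => HeightOneSpectrum.valuedAdicCompletion_eq_valuation' (K := K0) v k
  have hvl : Valued.v (l : v.adicCompletion K0) = 1 := by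
    have h1 := hval (l : K0)
    rw [map_natCast] at h1
    rw [h1]
    have h2 : v.valuation K0 (algebraMap (𝓞 K0) K0 (l : 𝓞 K0)) = 1 :=
      (v.valuation_eq_one_iff_notMem).mpr hl0
    rwa [map_natCast] at h2
  have hvx : Valued.v x = 1 := by
    rw [hx, map_mul, ← pow_two] at hvl
    exact (pow_eq_one_iff_of_nonneg zero_le (by norm_num)).mp hvl
  -- approximate `x` by an element of the field
  obtain ⟨k, hk⟩ : ∃ k : K0, Valued.v ((algebraMap K0 (v.adicCompletion K0) k) - x) < 1 := by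
    have h1 : {y : v.adicCompletion K0 | Valued.v (y - x) < 1} ∈ nhds x := by
      rw [Valued.mem_nhds]
      refine ⟨1, fun y hy => ?_⟩
      simpa using hy
    obtain ⟨y, hy, k, rfl⟩ :=
      mem_closure_iff_nhds.mp (HeightOneSpectrum.denseRange_algebraMap (K := K0) v x) _ h1
    exact ⟨k, hy⟩
  have hk1 : v.valuation K0 k ≤ 1 := by
    rw [← hval k]
    have h1 : algebraMap K0 (v.adicCompletion K0) k =
        (algebraMap K0 (v.adicCompletion K0) k - x) + x := by ring
    rw [h1]
    exact (Valuation.map_add _ _ _).trans (max_le hk.le hvx.le)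
  obtain ⟨a, ha⟩ := v.exists_valuation_sub_lt_of_integer hk1 1
  obtain ⟨m, rfl⟩ := int_of_integer a
  have h1 : Valued.v ((algebraMap K0 (v.adicCompletion K0) (m : K0)) - x) < 1 := by
    have e1 : (algebraMap K0 (v.adicCompletion K0) (m : K0)) - x =
        algebraMap K0 (v.adicCompletion K0) ((m : K0) - k) +
        (algebraMap K0 (v.adicCompletion K0) k - x) := by
      rw [map_sub]; ring
    rw [e1]
    refine (Valuation.map_add _ _ _).trans_lt (max_lt ?_ hk)
    rw [hval]
    rw [map_intCast] at ha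
    simpa using ha
  have h2 : Valued.v ((algebraMap K0 (v.adicCompletion K0) ((m : K0) ^ 2 - (l : K0)))) < 1 := by
    have e1 : algebraMap K0 (v.adicCompletion K0) ((m : K0) ^ 2 - (l : K0)) =
        (algebraMap K0 (v.adicCompletion K0) (m : K0) - x) *
        (algebraMap K0 (v.adicCompletion K0) (m : K0) + x) := by
      rw [map_sub, map_pow, map_natCast, hx]; ring
    rw [e1, map_mul]
    have h3 : Valued.v (algebraMap K0 (v.adicCompletion K0) (m : K0) + x) ≤ 1 := by
      have e2 : algebraMap K0 (v.adicCompletion K0) (m : K0) + x =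
          (algebraMap K0 (v.adicCompletion K0) (m : K0) - x) + (x + x) := by ring
      rw [e2]
      refine (Valuation.map_add _ _ _).trans (max_le h1.le ?_)
      exact (Valuation.map_add _ _ _).trans (max_le hvx.le hvx.le)
    calc _ ≤ Valued.v (algebraMap K0 (v.adicCompletion K0) (m : K0) - x) * 1 := by gcongr
      _ < 1 := by rwa [mul_one]
  rw [hval] at h2
  have h3 : ((m ^ 2 - l : ℤ) : 𝓞 K0) ∈ v.asIdeal := by
    rw [← v.valuation_lt_one_iff_mem (K := K0)]
    have e1 : algebraMap (𝓞 K0) K0 ((m ^ 2 - l : ℤ) : 𝓞 K0) = (m : K0) ^ 2 - (l : K0) := by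
      rw [map_intCast]
      push_cast
      rfl
    show v.valuation K0 (algebraMap (𝓞 K0) K0 ((m ^ 2 - l : ℤ) : 𝓞 K0)) < 1
    rw [e1]
    exact h2
  have h4 := dvd_of_mem v p hp hpv _ h3
  apply hl
  refine ⟨(m : ZMod p), ?_⟩
  have h5 : ((m ^ 2 - l : ℤ) : ZMod p) = 0 := (ZMod.intCast_zmod_eq_zero_iff_dvd _ _).mpr h4
  push_cast at h5
  rw [← pow_two]
  exact (sub_eq_zero.mp h5).symm

/-- the field as an extension of the base field -/
noncomputable def F0 : IntermediateField K0 Qb :=
  IntermediateField.extendScalars (F := K0) (E := FF) bot_le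

lemma F0_gal : IsGalois K0 F0 := by
  have h0 : IsAlgClosure K0 Qb :=
    ⟨inferInstance, ⟨fun z => ((qb_isIntegral z).tower_top (A := K0)).isAlgebraic⟩⟩
  have h1 : IsGalois K0 Qb := IsAlgClosure.isGalois K0 Qb
  have h2 : Normal K0 F0 := by
    rw [IntermediateField.normal_iff_forall_map_le']
    intro σ x hx
    rw [IntermediateField.mem_map] at hx
    obtain ⟨y, hy, rfl⟩ := hx
    exact FF_conj (σ.restrictScalars ℚ) y hy
  exact ⟨⟩

/-- the local degrees of the field at the odd primes are infinite -/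
theorem not_finite (v : HeightOneSpectrum (𝓞 K0)) (hv : (2 : 𝓞 K0) ∉ v.asIdeal)
    (ι : AlgebraicClosure ℚ →ₐ[K0] AlgebraicClosure (v.adicCompletion K0)) :
    ¬ FiniteDimensional (v.adicCompletion K0)
            (IntermediateField.adjoin (v.adicCompletion K0)
              (ι '' (F0 : Set (AlgebraicClosure ℚ)))) := by
  intro hfin
  obtain ⟨p, hp, hpv⟩ := exists_p v
  have hp2 : p ≠ 2 := by
    rintro rfl
    exact hv (by exact_mod_cast hpv)
  haveI : CharZero (v.adicCompletion K0) :=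
    charZero_of_injective_algebraMap (algebraMap K0 (v.adicCompletion K0)).injective
  obtain ⟨ϖ, hϖ, h⟩ := FF_local p hp hp2 (Module.finrank (v.adicCompletion K0)
            (IntermediateField.adjoin (v.adicCompletion K0)
              (ι '' (F0 : Set (AlgebraicClosure ℚ)))))
  have h1 := h (v.adicCompletion K0) (not_square v p hp hpv) (ι : Qb →+* _)
  have h2 : ι ϖ ∈ IntermediateField.adjoin (v.adicCompletion K0)
              (ι '' (F0 : Set (AlgebraicClosure ℚ))) :=
    IntermediateField.subset_adjoin _ _ ⟨ϖ, hϖ, rfl⟩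
  have h3 : minpoly (v.adicCompletion K0) (ι ϖ) =
      minpoly (v.adicCompletion K0) (⟨ι ϖ, h2⟩ : IntermediateField.adjoin (v.adicCompletion K0)
              (ι '' (F0 : Set (AlgebraicClosure ℚ)))) := by
    rw [← minpoly.algebraMap_eq (algebraMap (IntermediateField.adjoin (v.adicCompletion K0)
              (ι '' (F0 : Set (AlgebraicClosure ℚ))))
              (AlgebraicClosure (v.adicCompletion K0))).injective]
    rfl
  have h4 := minpoly.natDegree_le (A := v.adicCompletion K0)
    (⟨ι ϖ, h2⟩ : IntermediateField.adjoin (v.adicCompletion K0)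
              (ι '' (F0 : Set (AlgebraicClosure ℚ))))
  rw [← h3] at h4
  have h5 := h1.trans h4
  exact absurd h5 (not_le.mpr Nat.lt_two_pow_self)

theorem finite_set :
    Set.Finite {v : HeightOneSpectrum (𝓞 K0) |
        ∀ ι : AlgebraicClosure ℚ →ₐ[K0] AlgebraicClosure (v.adicCompletion K0),
          FiniteDimensional (v.adicCompletion K0)
            (IntermediateField.adjoin (v.adicCompletion K0)
              (ι '' (F0 : Set (AlgebraicClosure ℚ))))} := by
  have h1 : {v : HeightOneSpectrum (𝓞 K0) | v.asIdeal ∣ Ideal.span {(2 : 𝓞 K0)}}.Finite := by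
    apply Ideal.finite_factors
    intro h
    have h2 : (2 : 𝓞 K0) = 0 := by
      rw [Submodule.zero_eq_bot, Ideal.span_singleton_eq_bot] at h
      exact h
    exact two_ne_zero h2
  refine h1.subset fun v hv => ?_
  rw [Set.mem_setOf_eq] at hv ⊢
  rw [Ideal.dvd_iff_le, Ideal.span_singleton_le_iff_mem]
  by_contra hcon
  have halg : Algebra.IsAlgebraic K0 Qb := ⟨fun z => ((qb_isIntegral z).tower_top (A := K0)).isAlgebraic⟩
  exact not_finite v hcon (IsAlgClosed.lift (R := K0) (S := Qb)) (hv _)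

end Pool.Agent.X285
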