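import Mathlib
import Pool.Agent.H58W.HtLimit
import Pool.Agent.W70.LD.Mahler
import Pool.Agent.H58P.Ht

set_option autoImplicit false

/-!
# The Northcott property implies the strong Bogomolov property for all rational maps
-/

namespace Pool.Agent.X285

open Polynomial NumberField Height Module Filter Topology
open Pool.Agent.Helper259.AbsHt Pool.Agent.Helper259.HtPoly
open Pool.Agent.H58W
open Pool.Agent.W70.LD (ht_le_hM)
open Pool.Agent.H58P (Qb ht)

theorem small_limit_ht (P Q : Qb[X]) (d : ℕ) (hd : max P.natDegree Q.natDegree = d)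
    (hd2 : 2 ≤ d) (hco : IsCoprime P Q) :
    ∃ C : ℝ, ∀ (α : Qb) (L : ℝ), L < 1 →
      Tendsto (fun n : ℕ => hM (((lift P Q d)^[n] (α, 1)).1 / ((lift P Q d)^[n] (α, 1)).2) /
        (d : ℝ) ^ n) atTop (𝓝 L) →
      ht α ≤ C := by
  obtain ⟨C, hC⟩ := height_lower P Q d hd (by omega) hco
  have hC' : ∀ x y : Qb, d * absLogHeight ![x, y] ≤ max C 0 +
      absLogHeight ![hev P d x y, hev Q d x y] := fun x y =>
    (hC x y).trans (by linarith [le_max_left C 0])
  refine ⟨max C 0 + 1, fun α L hL hlim => ?_⟩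
  have hd2' : (2 : ℝ) ≤ d := by exact_mod_cast hd2
  set γ : ℕ → Qb := fun n => ((lift P Q d)^[n] (α, 1)).1 / ((lift P Q d)^[n] (α, 1)).2 with hγ
  have hev1 : ∀ᶠ n : ℕ in atTop, hM (γ n) / (d : ℝ) ^ n < 1 := hlim.eventually_lt_const hL
  obtain ⟨n, hn1⟩ := hev1.exists
  have hdn : (0 : ℝ) < (d : ℝ) ^ n := by positivity
  rw [div_lt_one hdn] at hn1
  have h3 := iterate_lower P Q d (max C 0) hd2 (le_max_right _ _) hC' (α, 1) n
  rw [absLogHeight_pair ((lift P Q d)^[n] (α, 1)).1] at h3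
  have h4 : absLogHeight ![1, γ n] ≤ hM (γ n) := ht_le_hM (γ n)
  have h6 : (d : ℝ) ^ n * absLogHeight ![α, 1] ≤ (d : ℝ) ^ n * (max C 0 + 1) := by
    have : max C 0 * ((d : ℝ) ^ n - 1) ≤ max C 0 * (d : ℝ) ^ n := by
      have := le_max_right C 0
      nlinarith
    calc (d : ℝ) ^ n * absLogHeight ![α, 1] ≤ max C 0 * ((d : ℝ) ^ n - 1) +
          absLogHeight ![1, γ n] := h3
      _ ≤ max C 0 * (d : ℝ) ^ n + (d : ℝ) ^ n := by linarith
      _ = _ := by ring
  have h7 := le_of_mul_le_mul_left h6 hdn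
  have h8 : absLogHeight ![1, α] = absLogHeight ![α, 1] := by
    have := absLogHeight_pair α 1
    rw [div_one] at this
    exact this.symm
  show absLogHeight ![1, α] ≤ _
  rw [h8]
  exact h7

/-- property (N) implies property (USB), with the formulation of the frozen statement -/
theorem usb_of_northcott (F : Set Qb) (hN : ∀ B : ℝ, {α : Qb | α ∈ F ∧ ht α ≤ B}.Finite)
    (h : AlgebraicClosure ℚ → ℝ)
    (hh : ∀ β : AlgebraicClosure ℚ, h β =
        Real.log (((sInf {n : ℕ | 0 < n ∧ ∀ i : ℕ, ((n : ℚ) * (minpoly ℚ β).coeff i).den = 1} : ℕ) : ℝ) *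
          (Polynomial.map (algebraMap ℚ ℂ) (minpoly ℚ β)).mahlerMeasure) /
          ((minpoly ℚ β).natDegree : ℝ))
    (Φ : RatFunc (AlgebraicClosure ℚ) → AlgebraicClosure ℚ × AlgebraicClosure ℚ →
        AlgebraicClosure ℚ × AlgebraicClosure ℚ)
    (hΦ : ∀ (f : RatFunc (AlgebraicClosure ℚ)) (z : AlgebraicClosure ℚ × AlgebraicClosure ℚ),
        Φ f z =
          (∑ i ∈ Finset.range (max f.num.natDegree f.denom.natDegree + 1),
              f.num.coeff i * z.1 ^ i * z.2 ^ (max f.num.natDegree f.denom.natDegree - i),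
           ∑ i ∈ Finset.range (max f.num.natDegree f.denom.natDegree + 1),
              f.denom.coeff i * z.1 ^ i * z.2 ^ (max f.num.natDegree f.denom.natDegree - i)))
    (f : RatFunc (AlgebraicClosure ℚ)) (hf : 2 ≤ max f.num.natDegree f.denom.natDegree) :
    ∃ c : ℝ, 0 < c ∧
          Set.Finite {α : AlgebraicClosure ℚ | α ∈ F ∧ ∃ L : ℝ,
            Filter.Tendsto
              (fun n : ℕ => h (((Φ f)^[n] (α, 1)).1 / ((Φ f)^[n] (α, 1)).2) /
                ((max f.num.natDegree f.denom.natDegree : ℕ) : ℝ) ^ n)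
              Filter.atTop (nhds L) ∧ L < c} := by
  obtain ⟨C, hC⟩ := small_limit_ht f.num f.denom (max f.num.natDegree f.denom.natDegree) rfl hf
    (RatFunc.isCoprime_num_denom f)
  refine ⟨1, one_pos, (hN C).subset ?_⟩
  rintro α ⟨hα, L, hlim, hL⟩
  refine ⟨hα, hC α L hL ?_⟩
  have e1 : ∀ β, hM β = h β := fun β => (hh β).symm
  have e2 : ∀ z, lift f.num f.denom (max f.num.natDegree f.denom.natDegree) z = Φ f z := by
    intro z
    rw [hΦ f z]
    rfl
  have e3 : lift f.num f.denom (max f.num.natDegree f.denom.natDegree) = Φ f := funext e2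
  simp only [e1, e3]
  exact hlim

end Pool.Agent.X285
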